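import Pool.Agent.Helper77.LH.Main

open Module Manifold ContDiff MeasureTheory
open Pool.Agent.Helper77.LieForms Pool.Agent.Helper77.LH

namespace Pool.Agent.Results.MP_24023e_gt.CompactQuotients

/-- **The Fino–Vezzoni conjecture for all Hermitian metrics on compact quotients of Lie groups.**
Let `G` be a Lie group with unimodular Lie algebra `𝔤`, `Γ` a discrete subgroup such that
`M = G / Γ` is compact, `μ` the invariant probability measure of `M` (both conditions are
automatic for lattices) and `J` an integrable complex structure on `𝔤`; it makes `M` (which is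
diffeomorphic to `Γ \ G`) a compact complex manifold.  If `M` has a balanced Hermitian metric
`g₁` and a pluriclosed Hermitian metric `g₂` (arbitrary smooth metrics, not necessarily
invariant), then `M` has a Kähler metric `g₃`; it can be chosen invariant and such that its
fundamental form is the sum of the average of the fundamental form of `g₂` and of the
`(1,1)`-part of an exact invariant form. -/
theorem result {E : Type*} [NormedAddCommGroup E] [NormedSpace ℝ E] [FiniteDimensional ℝ E]
    {G : Type*} [TopologicalSpace G] [ChartedSpace E G] [Group G] [LieGroup 𝓘(ℝ, E) ∞ G]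
    (Γ : Subgroup G) [DiscreteTopology Γ] [CompactSpace (G ⧸ Γ)]
    [MeasurableSpace (G ⧸ Γ)] [BorelSpace (G ⧸ Γ)] (μ : Measure (G ⧸ Γ))
    [IsProbabilityMeasure μ] [SMulInvariantMeasure G (G ⧸ Γ) μ]
    (hL : IsUnimodular (LieAlg E G)) (J : LieAlg E G →ₗ[ℝ] LieAlg E G)
    (hJ : IsComplexStructure J) (g₁ g₂ : G ⧸ Γ → LinearMap.BilinForm ℝ (LieAlg E G))
    (h₁ : IsSmoothMetric J g₁) (hb : Balanced J g₁)
    (h₂ : IsSmoothMetric J g₂) (hp : Pluriclosed J g₂) :
    ∃ g₃ : LinearMap.BilinForm ℝ (LieAlg E G),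
      IsSmoothMetric J (fun _ : G ⧸ Γ => g₃) ∧ Kahler J (fun _ : G ⧸ Γ => g₃) ∧
      ∃ α : Dual ℝ (LieAlg E G), ∀ v w, omega J g₃ v w =
        (∫ x, omega J (g₂ x) v w ∂μ) + (1 / 2) * (α ⁅v, w⁆ + α ⁅J v, J w⁆) := by
  obtain ⟨g₃, h3, hK, hα⟩ := exists_kahler_quotient μ hL hJ h₁ hb h₂ hp
  refine ⟨g₃, ⟨fun v w => Smooth.const _, fun _ => h3⟩, fun x v => ?_, hα⟩
  exact extD_const hK x v

end Pool.Agent.Results.MP_24023e_gt.CompactQuotients
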