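import Mathlib
import Pool.Agent.Helper27.LP.Solv
import Pool.Agent.Helper27.LP.Final
import Pool.Agent.Helper16.TR.Poly
import Pool.Agent.Helper16.TR.Transfer
import Pool.Agent.Helper21.FL.PartA
import Pool.Agent.Helper27.TFM.Adic
import Pool.Agent.Helper27.TG.Final
import Pool.Agent.Helper68.RR.Mono

/-!
# Tame representations for large primes

Let `K` be a number field, `S` a finite set of primes of `K`, and `n` a natural number. There are a
constant `C` and an open subgroup `N` of the absolute Galois group of `K` such that for all primes
`p > C` and all Noetherian local rings `A` with finite residue field of characteristic `p`, with the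
adic topology, all continuous representations of dimension `n` over `A`, which are unramified outside
`S`, at most tamely ramified in `S` and residually `p`-solvable, are trivial on `N`. So they have
finite image and factor, for all `p` and `A` together, through one finite quotient.

A group is `p`-solvable if it has a normal series whose factors are `p`-groups or have elements of
orders prime to `p`. For instance this holds if the residual image is solvable (theorem
`residually_solvable`), or if its order is prime to `p` (theorem `residually_coprime`). For large `p`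
a finite linear group of dimension `n` is `p`-solvable if and only if no simple group of Lie type in
characteristic `p` is a composition factor. The representation itself is not assumed to be
virtually solvable.

Idea of the proof. For large `p` a `p`-solvable linear group of dimension `n` has a normal Sylow
`p`-subgroup `U` (Hall and Higman; here the theorem of Jordan bounds the order of the automorphism
group of the Fitting subgroup of the quotient). The quotient by `U` has a linear representation of
order prime to `p`, which lifts to characteristic zero, so by the theorem of Jordan it has an abelian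
normal subgroup of bounded index. The fields of bounded degree, tame in `S`, generate a finite
extension `L₁` of `K` (Hermite), and the maximal abelian extension `L₂` of `L₁`, tame in `S`, is
finite over `L₁`, as well as the maximal abelian extension `L₃` of `L₂`, tame in `S`. All this does
not depend on `p`. If `p` is larger than the degree of `L₃`, then `L₂` has no cyclic extension of
degree `p`, tame in `S`. The image of the absolute Galois group of `L₂` is a pro-`p`-group, so it is
trivial.
-/

set_option autoImplicit false

open NumberField IsLocalRing Matrix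

namespace Pool.Agent.Results.MP_924d78_nt.LargePrimes

/-- The homomorphism `ρ` from the absolute Galois group of `K` is unramified outside `S` and at most
tamely ramified in `S`: for every number field `F` over `K`, embedded into the fixed field of the
kernel of `ρ`, and every maximal ideal `P` of the ring of integers of `F` above a prime `q` of `K`,
the ramification index `e` of `P` over `q` is `1` if `q ∉ S` and is prime to the residue
characteristic if `q ∈ S`. -/
def TameAt (K : Type) [Field K] [NumberField K] (S : Set (Ideal (𝓞 K))) {H : Type} [Group H]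
    (ρ : (AlgebraicClosure K ≃ₐ[K] AlgebraicClosure K) →* H) : Prop :=
  ∀ (F : Type) [Field F] [NumberField F] [Algebra K F] (ι : F →ₐ[K] AlgebraicClosure K),
    ι.fieldRange ≤ IntermediateField.fixedField ρ.ker →
    ∀ (P : Ideal (𝓞 F)), P.IsMaximal →
    ∀ (q : Ideal (𝓞 K)), q = P.comap (algebraMap (𝓞 K) (𝓞 F)) →
    ∀ e : ℕ, q.map (algebraMap (𝓞 K) (𝓞 F)) ≤ P ^ e →
      ¬ (q.map (algebraMap (𝓞 K) (𝓞 F)) ≤ P ^ (e + 1)) →
      (q ∉ S → e = 1) ∧ (q ∈ S → ¬ (ringChar (𝓞 K ⧸ q) ∣ e))

/-- The residual representation: the reduction of `ρ` modulo the maximal ideal. -/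
noncomputable def residual {Γ A : Type} [Group Γ] [CommRing A] [IsLocalRing A] {n : ℕ}
    (ρ : Γ →* GL (Fin n) A) : Γ →* GL (Fin n) (ResidueField A) :=
  (Matrix.GeneralLinearGroup.map (residue A)).comp ρ

/-- The group `G` is `p`-solvable: it has a normal series, in each of whose factors all elements
have `p`-power order, or all elements have order prime to `p`. -/
def PSolvable (p : ℕ) (G : Type) [Group G] : Prop :=
  ∃ (m : ℕ) (N : ℕ → Subgroup G), N 0 = ⊥ ∧ N m = ⊤ ∧ ∀ i, (N i).Normal ∧ N i ≤ N (i + 1) ∧
    ((∀ x ∈ N (i + 1), ∃ k : ℕ, x ^ p ^ k ∈ N i) ∨ ∀ x ∈ N (i + 1), ∃ k : ℕ, ¬ p ∣ k ∧ x ^ k ∈ N i)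

theorem result (K : Type) [Field K] [NumberField K] (S : Set (Ideal (𝓞 K))) (hS : S.Finite)
    (n : ℕ) : ∃ (C : ℕ) (N : Subgroup (AlgebraicClosure K ≃ₐ[K] AlgebraicClosure K)),
      IsOpen (N : Set (AlgebraicClosure K ≃ₐ[K] AlgebraicClosure K)) ∧
      ∀ (p : ℕ) [Fact p.Prime], C < p →
      ∀ (A : Type) [CommRing A] [IsLocalRing A] [IsNoetherianRing A] [TopologicalSpace A]
        [Finite (ResidueField A)] [CharP (ResidueField A) p]
        (ρ : (AlgebraicClosure K ≃ₐ[K] AlgebraicClosure K) →* GL (Fin n) A),
        IsAdic (maximalIdeal A) → Continuous ρ → TameAt K S ρ →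
        PSolvable p (residual ρ).range → N ≤ ρ.ker ∧ (Set.range ρ).Finite := by
  obtain ⟨C, N, hN, hN'⟩ := Helper27.LP.large_primes K S hS n
  refine ⟨C, N, hN, ?_⟩
  intro p _ hp A _ _ _ _ _ _ ρ hA hρ hT hsol
  have h : N ≤ ρ.ker := hN' p hp A ρ hA hρ hT hsol
  exact ⟨h, Helper27.TE.finite_range_of_open hN h⟩

/-- Solvable groups are `p`-solvable. -/
theorem pSolvable_of_isSolvable (p : ℕ) [Fact p.Prime] {G : Type} [Group G] [Finite G]
    [Group.IsSolvable G] : PSolvable p G :=
  Helper27.LP.pSolvable_of_isSolvable p

/-- Groups of order prime to `p` are `p`-solvable. -/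
theorem pSolvable_of_not_dvd (p : ℕ) {G : Type} [Group G] (h : ¬ p ∣ Nat.card G) :
    PSolvable p G :=
  Helper27.LP.pSolvable_of_not_dvd p h

/-- For all but finitely many primes `p`, residually solvable tame representations have finite
image. -/
theorem residually_solvable (K : Type) [Field K] [NumberField K] (S : Set (Ideal (𝓞 K)))
    (hS : S.Finite) (n : ℕ) : ∃ C : ℕ, ∀ (p : ℕ) [Fact p.Prime], C < p →
      ∀ (A : Type) [CommRing A] [IsLocalRing A] [IsNoetherianRing A] [TopologicalSpace A]
        [Finite (ResidueField A)] [CharP (ResidueField A) p]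
        (ρ : (AlgebraicClosure K ≃ₐ[K] AlgebraicClosure K) →* GL (Fin n) A),
        IsAdic (maximalIdeal A) → Continuous ρ → TameAt K S ρ →
        Group.IsSolvable (residual ρ).range → (Set.range ρ).Finite := by
  obtain ⟨C, N, -, hN'⟩ := result K S hS n
  refine ⟨C, ?_⟩
  intro p _ hp A _ _ _ _ _ _ ρ hA hρ hT hsol
  exact (hN' p hp A ρ hA hρ hT (pSolvable_of_isSolvable p)).2

/-- For all but finitely many primes `p`, tame representations whose residual image has order prime
to `p` have finite image. -/
theorem residually_coprime (K : Type) [Field K] [NumberField K] (S : Set (Ideal (𝓞 K)))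
    (hS : S.Finite) (n : ℕ) : ∃ C : ℕ, ∀ (p : ℕ) [Fact p.Prime], C < p →
      ∀ (A : Type) [CommRing A] [IsLocalRing A] [IsNoetherianRing A] [TopologicalSpace A]
        [Finite (ResidueField A)] [CharP (ResidueField A) p]
        (ρ : (AlgebraicClosure K ≃ₐ[K] AlgebraicClosure K) →* GL (Fin n) A),
        IsAdic (maximalIdeal A) → Continuous ρ → TameAt K S ρ →
        ¬ p ∣ Nat.card (residual ρ).range → (Set.range ρ).Finite := by
  obtain ⟨C, N, -, hN'⟩ := result K S hS n
  refine ⟨C, ?_⟩
  intro p _ hp A _ _ _ _ _ _ ρ hA hρ hT hcard
  exact (hN' p hp A ρ hA hρ hT (pSolvable_of_not_dvd p hcard)).2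

end Pool.Agent.Results.MP_924d78_nt.LargePrimes
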