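import Mathlib
import Pool.Agent.Helper77.SN.Final
import Pool.Agent.Helper77.SM.St.Small
import Pool.Agent.Helper42.SOQ.Example
import Pool.Agent.Helper42.SOM.Twist

/-!
# Second order deformations and tame representations

Let `K` be a number field, `S` a finite set of primes of `K`, `p` a prime number and `n < p`. The
theorem `result` says that all continuous representations `ρ` of the absolute Galois group of `K`
into `GL_n (A)`, tame in `S`, the projective residual image of which is a `p`-group, have finite image,
for all complete Noetherian local rings `A` at once, as soon as the second order deformations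
`1 + ε φ + ε ^ 2 ψ` of the trivial representation over finite fields, tame in `S`, are trivial in the
sense that the values of `φ` commute (or all products of `n` values of `φ` vanish). Only `φ` of trace
zero occur, the values of which at the inertia groups are nilpotent. In characteristic `p` this is all.
In residue characteristic `p`, for `ρ` with unipotent inertia, two more conditions of the same kind are
used: the same for the representations `1 + p V` modulo `p ^ 3`, and that the abelian extensions of `p`-power
degree, tame in `S`, have exponent `p`; for arbitrary `ρ` the values `φ τ` for `τ` in inertia groups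
are allowed to satisfy that `(φ τ) ^ p - u φ τ` is nilpotent. Over discrete valuation rings with
`e n < p - 1`, `e` the absolute ramification index, the inertia is unipotent automatically (theorem
`small_ramification`).

The criterion is about finite groups: by class field theory `φ` is a tuple of matrices, one for each
of the finitely many generators of the maximal pro-`p` quotient of the tame Galois group, and the
existence of `ψ` says that certain linear combinations of commutators vanish. So for given `K`, `S`,
`p`, `n` it is a condition on a finite system of quadratic equations.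

The theorem `rational` says that for the field of rational numbers the criterion follows from a
condition on the linking numbers of the primes in `S`; `example_three` gives an example with four
primes congruent to `1` modulo `p = 3`, where the maximal pro-`p` quotient of the Galois group is
infinite by the theorem of Golod and Shafarevich.

Idea of the proof. First one reduces to complete discrete valuation rings with uniformizer `π`. If
the image is infinite, it does not consist of unipotent matrices, since the abelian extensions, tame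
in `S`, of a finite extension of `K` are finite. After a ramified extension of the ring and a change of
the lattice one has `ρ = 1 + π ^ a V` with `a ≥ 1`, where not all products of `n` values of the
reduction `φ` of `V` vanish; `n < p` is used to make the determinant trivial. Modulo higher powers of
`π` this is a second order deformation, so the values of `φ` commute. Then an idempotent in the algebra
generated by the values of `φ` lifts to an idempotent which commutes with `ρ`; so `ρ` is decomposable,
and one concludes by induction on `n`.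
-/

set_option autoImplicit false

open NumberField IsLocalRing Matrix

namespace Pool.Agent.Results.MP_924d78_nt.SecondOrder

/-- the absolute Galois group -/
abbrev G (K : Type) [Field K] : Type := AlgebraicClosure K ≃ₐ[K] AlgebraicClosure K

/-- The fixed field of the subgroup `N` of the absolute Galois group of `K` is unramified outside
`S` and at most tamely ramified in `S`: for every number field `F` over `K`, embedded into this
fixed field, and every maximal ideal `P` of the ring of integers of `F` above a prime `q` of `K`,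
the ramification index `e` of `P` over `q` is `1` if `q ∉ S` and is prime to the residue
characteristic if `q ∈ S`. -/
def Tame (K : Type) [Field K] [NumberField K] (S : Set (Ideal (𝓞 K))) (N : Subgroup (G K)) :
    Prop :=
  ∀ (F : Type) [Field F] [NumberField F] [Algebra K F] (ι : F →ₐ[K] AlgebraicClosure K),
    ι.fieldRange ≤ IntermediateField.fixedField N →
    ∀ (P : Ideal (𝓞 F)), P.IsMaximal →
    ∀ (q : Ideal (𝓞 K)), q = P.comap (algebraMap (𝓞 K) (𝓞 F)) →
    ∀ e : ℕ, q.map (algebraMap (𝓞 K) (𝓞 F)) ≤ P ^ e →
      ¬ (q.map (algebraMap (𝓞 K) (𝓞 F)) ≤ P ^ (e + 1)) →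
      (q ∉ S → e = 1) ∧ (q ∈ S → ¬ (ringChar (𝓞 K ⧸ q) ∣ e))

/-- The residual representation: the reduction of `ρ` modulo the maximal ideal. -/
noncomputable def residual {Γ A : Type} [Group Γ] [CommRing A] [IsLocalRing A] {n : ℕ}
    (ρ : Γ →* GL (Fin n) A) : Γ →* GL (Fin n) (ResidueField A) :=
  (Matrix.GeneralLinearGroup.map (residue A)).comp ρ

/-- The projective residual image is a `p`-group: every element of the residual image has a power
with exponent a power of `p` which is a scalar matrix. -/
def ProjectivelyP {Γ A : Type} [Group Γ] [CommRing A] [IsLocalRing A] {n : ℕ} (p : ℕ)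
    (ρ : Γ →* GL (Fin n) A) : Prop :=
  ∀ g, ∃ (j : ℕ) (c : ResidueField A), ((residual ρ g ^ p ^ j : GL (Fin n) (ResidueField A)) :
    Matrix (Fin n) (Fin n) (ResidueField A)) = c • 1

/-- The values of `Φ` commute, or all products of `n` values of `Φ` are zero. -/
def Commuting {Γ R : Type} [Ring R] (n : ℕ) (Φ : Γ → R) : Prop :=
  (∀ g h, Φ g * Φ h = Φ h * Φ g) ∨ ∀ l : List Γ, l.length = n → (l.map Φ).prod = 0

/-- Let `1 + ε φ + ε ^ 2 ψ` be a continuous homomorphism from the absolute Galois group of `K` to
`GL_n (k[ε] / (ε ^ 3))`, unramified outside `S` and at most tamely ramified in `S`, with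
`trace φ = 0`, such that `φ τ ^ p - u φ τ` is nilpotent for all elements `τ` of inertia groups. Then
the values of `φ` commute, or all products of `n` values of `φ` are zero. -/
def Rigid (K : Type) [Field K] [NumberField K] (S : Set (Ideal (𝓞 K))) (p n : ℕ)
    (k : Type) [Field k] (u : k) : Prop :=
  ∀ φ ψ : G K → Matrix (Fin n) (Fin n) k,
    (∀ g h, φ (g * h) = φ g + φ h) → (∀ g h, ψ (g * h) = ψ g + ψ h + φ g * φ h) →
    (∃ N : Subgroup (G K), IsOpen (N : Set (G K)) ∧ Tame K S N ∧ ∀ g ∈ N, φ g = 0 ∧ ψ g = 0) →
    (∀ g, (φ g).trace = 0) →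
    (∀ Q : Ideal (𝓞 (AlgebraicClosure K)), Q.IsMaximal → ∀ τ ∈ Q.inertia (G K),
      IsNilpotent (φ τ ^ p - u • φ τ)) →
    Commuting n φ

/-- Let `B` be a finite local ring with maximal ideal generated by `p` and `p ^ 3 = 0 ≠ p ^ 2`, and
let `θ = 1 + p V` be a continuous homomorphism from the absolute Galois group of `K` to `GL_n (B)`,
unramified outside `S` and at most tamely ramified in `S`. Let `W` be the reduction of `V` modulo the
maximal ideal, and suppose that `trace W = 0` and that `W τ` is nilpotent for all elements `τ` of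
inertia groups. Then the values of `W` commute, or all products of `n` values of `W` are zero. -/
def RigidW (K : Type) [Field K] [NumberField K] (S : Set (Ideal (𝓞 K))) (p n : ℕ) : Prop :=
  ∀ (B : Type) [CommRing B] [IsLocalRing B] [Finite B] [CharP (ResidueField B) p],
    maximalIdeal B = Ideal.span {(p : B)} → (p : B) ^ 2 ≠ 0 → (p : B) ^ 3 = 0 →
    ∀ (θ : G K →* Matrix (Fin n) (Fin n) B) (V : G K → Matrix (Fin n) (Fin n) B),
    (∀ g, θ g = 1 + (p : B) • V g) →
    (∃ N : Subgroup (G K), IsOpen (N : Set (G K)) ∧ Tame K S N ∧ ∀ g ∈ N, θ g = 1) →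
    (∀ g, ((V g).map (residue B)).trace = 0) →
    (∀ Q : Ideal (𝓞 (AlgebraicClosure K)), Q.IsMaximal → ∀ τ ∈ Q.inertia (G K),
      IsNilpotent ((V τ).map (residue B))) →
    Commuting n (fun g => (V g).map (residue B))

/-- Every finite abelian extension of `K` of `p`-power degree, unramified outside `S` and at most
tamely ramified in `S`, has exponent dividing `p`. -/
def Elementary (K : Type) [Field K] [NumberField K] (S : Set (Ideal (𝓞 K))) (p : ℕ) : Prop :=
  ∀ (H : Type) [CommGroup H] [Finite H] (χ : G K →* H), IsPGroup p H →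
    (∃ N : Subgroup (G K), IsOpen (N : Set (G K)) ∧ Tame K S N ∧ N ≤ χ.ker) →
    ∀ g, χ g ^ p = 1

/-- The representation `ρ` maps the elements of inertia groups to unipotent matrices. -/
def Unipotent {K A : Type} [Field K] [NumberField K] [CommRing A] {n : ℕ}
    (ρ : G K →* GL (Fin n) A) : Prop :=
  ∀ Q : Ideal (𝓞 (AlgebraicClosure K)), Q.IsMaximal → ∀ τ ∈ Q.inertia (G K),
    IsNilpotent ((ρ τ : Matrix (Fin n) (Fin n) A) - 1)

theorem criterion_of {K : Type} [Field K] [NumberField K] {S : Set (Ideal (𝓞 K))} {p n : ℕ}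
    {k : Type} [Field k] {u : k} (h : Rigid K S p n k u) :
    Helper77.SN.Criterion K S p n k u := by
  intro φ ψ h1 h2 h3 h4 h5 ⟨l, hl, hl'⟩
  rcases h φ ψ h1 h2 h3 h4 h5 with hc | hc
  · exact hc
  · exact absurd (hc l hl) hl'

theorem criterionW_of {K : Type} [Field K] [NumberField K] {S : Set (Ideal (𝓞 K))} {p n : ℕ}
    (h : RigidW K S p n) : Helper77.SN.CriterionW K S p n := by
  intro B _ _ _ _ hB hp3 V hV hN htr hI ⟨l, hl, hl'⟩ g g'
  by_cases hp2 : (p : B) ^ 2 = 0
  · rw [hp2, zero_smul, zero_smul]
  obtain ⟨N, hNo, hNt, hN0⟩ := hN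
  let θ : G K →* Matrix (Fin n) (Fin n) B :=
    { toFun := fun g => 1 + (p : B) • V g
      map_one' := by rw [hN0 1 N.one_mem, add_zero]
      map_mul' := fun x y => by
        rw [hV x y, add_mul, mul_add, mul_add, one_mul, one_mul, mul_one, Matrix.smul_mul,
          Matrix.mul_smul, smul_smul, ← pow_two]
        abel }
  have hcom : Commuting n (fun g => (V g).map (residue B)) :=
    h B hB hp2 hp3 θ V (fun _ => rfl)
      ⟨N, hNo, hNt, fun x hx => by
        change 1 + (p : B) • V x = 1
        rw [hN0 x hx, add_zero]⟩ htr hI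
  rcases hcom with hc | hc
  · -- the commutator is divisible by `p`
    have h1 : (V g * V g' - V g' * V g).map (residue B) = 0 := by
      have h2 := hc g g'
      change (residue B).mapMatrix (V g * V g' - V g' * V g) = 0
      rw [map_sub, map_mul, map_mul, sub_eq_zero]
      exact h2
    rw [← sub_eq_zero, ← smul_sub]
    ext i j
    have h3 := congrFun (congrFun h1 i) j
    rw [Matrix.map_apply, Matrix.zero_apply, residue_eq_zero_iff, hB,
      Ideal.mem_span_singleton] at h3
    obtain ⟨x, hx⟩ := h3
    rw [Matrix.smul_apply, hx, smul_eq_mul, Matrix.zero_apply, ← mul_assoc, ← pow_succ, hp3,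
      zero_mul]
  · exact absurd (hc l hl) hl'

/-- elements with unipotent image have residual image of `p`-power order -/
lemma residual_pow {Γ A : Type} [Group Γ] [CommRing A] [IsLocalRing A] {n : ℕ} [NeZero n] (p : ℕ)
    [Fact p.Prime] [CharP (ResidueField A) p] (ρ : Γ →* GL (Fin n) A) (g : Γ)
    (h : IsNilpotent ((ρ g : Matrix (Fin n) (Fin n) A) - 1)) :
    ∃ j : ℕ, Helper27.LP.residual ρ g ^ p ^ j = 1 := by
  obtain ⟨m, hm⟩ := h
  have h1 : (((residual ρ g : GL (Fin n) (ResidueField A)) :
      Matrix (Fin n) (Fin n) (ResidueField A)) - 1) ^ m = 0 := by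
    have h2 := congrArg (residue A).mapMatrix hm
    rw [map_pow, map_sub, map_one, map_zero] at h2
    exact h2
  refine ⟨m, ?_⟩
  apply Units.ext
  have h3 : m ≤ p ^ m := (Nat.lt_pow_self (Fact.out : p.Prime).one_lt).le
  have h4 : (((residual ρ g : GL (Fin n) (ResidueField A)) :
      Matrix (Fin n) (Fin n) (ResidueField A)) - 1) ^ p ^ m = 0 := pow_eq_zero_of_le h3 h1
  rw [sub_pow_char_pow_of_commute _ _ (Commute.one_right _), one_pow, sub_eq_zero] at h4
  rw [Units.val_pow_eq_pow_val, Units.val_one]
  exact h4

/-- the general statement for projective residual images -/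
theorem main_projective {K : Type} [Field K] [NumberField K] {S : Set (Ideal (𝓞 K))}
    (hS : S.Finite) (p : ℕ) [Fact p.Prime] {n : ℕ} (hn : n < p) (star mixed : Prop)
    (hC : ∀ (k : Type) [Field k] [Finite k] [CharP k p] (u : k), (u = 0 ∨ star) →
      Rigid K S p n k u)
    (hW : mixed → RigidW K S p n) (hE : mixed → Elementary K S p)
    (A : Type) [CommRing A] [IsLocalRing A] [IsNoetherianRing A]
    [TopologicalSpace A] [CharP (ResidueField A) p] [Finite (ResidueField A)]
    [IsAdicComplete (maximalIdeal A) A] (hA : IsAdic (maximalIdeal A))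
    (hmix : (p : A) = 0 ∨ mixed) (ρ : G K →* GL (Fin n) A) (hρ : Continuous ρ)
    (hT : Tame K S ρ.ker) (hr : ProjectivelyP p ρ) (hI : (p : A) = 0 ∨ star ∨ Unipotent ρ) :
    (Set.range ρ).Finite := by
  rcases Nat.eq_zero_or_pos n with rfl | hpos
  · have : Subsingleton (GL (Fin 0) A) := ⟨fun a b => Units.ext (Subsingleton.elim _ _)⟩
    exact Set.toFinite _
  have hne : NeZero n := ⟨hpos.ne'⟩
  obtain ⟨χ, ρ', hχ, hρ', hker, hmul, hr', hone⟩ := Helper42.SOM.exists_twist p hA ρ hρ hr
  refine Helper42.SOM.finite_of_twist hχ ?_ hmul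
  refine Helper77.SN.main hS p hn star mixed (fun k _ _ _ u hu => criterion_of (hC k u hu))
    (fun h => criterionW_of (hW h)) hE A hA hmix ρ' hρ' ?_ hr' ?_
  · exact Helper77.SO.TameSub.mono hT hker
  · rcases hI with h | h | h
    · exact Or.inl h
    · exact Or.inr (Or.inl h)
    · refine Or.inr (Or.inr ?_)
      intro Q hQ τ hτ
      have h1 := h Q hQ τ hτ
      have h2 := hone τ (residual_pow p ρ τ h1)
      have h3 := hmul τ
      rw [h2, Units.val_one, one_smul] at h3
      rw [← h3]
      exact h1

theorem result (K : Type) [Field K] [NumberField K] (S : Set (Ideal (𝓞 K))) (hS : S.Finite)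
    (p : ℕ) [Fact p.Prime] (n : ℕ) (hn : n < p)
    (h : ∀ (k : Type) [Field k] [Finite k] [CharP k p], Rigid K S p n k 0) :
    -- coefficient rings of characteristic `p`
    (∀ (A : Type) [CommRing A] [IsLocalRing A] [IsNoetherianRing A] [TopologicalSpace A]
      [CharP A p] [Finite (ResidueField A)] [IsAdicComplete (maximalIdeal A) A]
      (ρ : G K →* GL (Fin n) A), IsAdic (maximalIdeal A) → Continuous ρ → Tame K S ρ.ker →
      ProjectivelyP p ρ → (Set.range ρ).Finite) ∧
    -- all coefficient rings
    (RigidW K S p n → Elementary K S p →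
      ∀ (A : Type) [CommRing A] [IsLocalRing A] [IsNoetherianRing A] [TopologicalSpace A]
      [CharP (ResidueField A) p] [Finite (ResidueField A)] [IsAdicComplete (maximalIdeal A) A]
      (ρ : G K →* GL (Fin n) A), IsAdic (maximalIdeal A) → Continuous ρ → Tame K S ρ.ker →
      ProjectivelyP p ρ →
      (Unipotent ρ ∨
        ∀ (k : Type) [Field k] [Finite k] [CharP k p] (u : k), Rigid K S p n k u) →
      (Set.range ρ).Finite) := by
  constructor
  · intro A _ _ _ _ _ _ _ ρ hA hρ hT hr
    have hchar : CharP (ResidueField A) p := by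
      refine (CharP.charP_iff_prime_eq_zero Fact.out).2 ?_
      rw [← map_natCast (residue A), CharP.cast_eq_zero, map_zero]
    refine main_projective hS p hn False False ?_ False.elim False.elim A hA
      (Or.inl (CharP.cast_eq_zero A p)) ρ hρ hT hr (Or.inl (CharP.cast_eq_zero A p))
    intro k _ _ _ u hu
    rcases hu with rfl | hu
    · exact h k
    · exact hu.elim
  · intro hW hE A _ _ _ _ _ _ _ ρ hA hρ hT hr hI
    rcases hI with hI | hI
    · refine main_projective hS p hn False True ?_ (fun _ => hW) (fun _ => hE) A hA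
        (Or.inr trivial) ρ hρ hT hr (Or.inr (Or.inr hI))
      intro k _ _ _ u hu
      rcases hu with rfl | hu
      · exact h k
      · exact hu.elim
    · exact main_projective hS p hn True True (fun k _ _ _ u _ => hI k u)
        (fun _ => hW) (fun _ => hE) A hA (Or.inr trivial) ρ hρ hT hr
        (Or.inr (Or.inl trivial))

theorem small_ramification_aux (K : Type) [Field K] [NumberField K] (S : Set (Ideal (𝓞 K)))
    (hS : S.Finite) (p : ℕ) [Fact p.Prime] (n : ℕ)
    (h : ∀ (k : Type) [Field k] [Finite k] [CharP k p], Rigid K S p n k 0)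
    (hW : RigidW K S p n) (hE : Elementary K S p) (A : Type) [CommRing A] [IsDomain A]
    [IsDiscreteValuationRing A] [TopologicalSpace A] [CharP (ResidueField A) p]
    [Finite (ResidueField A)] [IsAdicComplete (maximalIdeal A) A] (hA : IsAdic (maximalIdeal A))
    (e : ℕ) (he : (p : A) ∉ maximalIdeal A ^ (e + 1)) (hen : e * n + 1 < p)
    (ρ : G K →* GL (Fin n) A) (hρ : Continuous ρ) (hT : Tame K S ρ.ker)
    (hr : ∀ g, ∃ j : ℕ, residual ρ g ^ p ^ j = 1) : (Set.range ρ).Finite := by
  have hp : p.Prime := Fact.out
  obtain ⟨ϖ, hϖ⟩ := IsDiscreteValuationRing.exists_irreducible A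
  have hmax : maximalIdeal A = Ideal.span {ϖ} := hϖ.maximalIdeal_eq
  have he0 : e ≠ 0 := by
    rintro rfl
    apply he
    rw [zero_add, pow_one, ← residue_eq_zero_iff, map_natCast, CharP.cast_eq_zero]
  have hn : n < p := by
    have : n ≤ e * n := Nat.le_mul_of_pos_left n (Nat.pos_of_ne_zero he0)
    omega
  have he' : ¬ ϖ ^ (e + 1) ∣ (p : A) := by
    rwa [hmax, Ideal.span_singleton_pow, Ideal.mem_span_singleton] at he
  have hO : Helper77.SM.Good p A := ⟨inferInstance, inferInstance, inferInstance⟩
  refine (result K S hS p n hn h).2 hW hE A ρ hA hρ hT ?_ (Or.inl ?_)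
  · intro g
    obtain ⟨j, hj⟩ := hr g
    exact ⟨j, 1, by rw [hj, Units.val_one, one_smul]⟩
  · intro Q hQ τ hτ
    -- pass to the quotient by the kernel
    set R := ρ.ker with hR
    let ρ₁ : G K →* Matrix (Fin n) (Fin n) A := (Units.coeHom _).comp ρ
    have hρ₁ : R ≤ ρ₁.ker := by
      intro g hg
      rw [MonoidHom.mem_ker]
      change ((ρ g : GL (Fin n) A) : Matrix (Fin n) (Fin n) A) = 1
      rw [(MonoidHom.mem_ker).1 hg]
      rfl
    let σ : (G K ⧸ R) →* Matrix (Fin n) (Fin n) A := QuotientGroup.lift R ρ₁ hρ₁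
    have hopen := Helper27.TFM.isOpen_KI_of_continuous hA ρ hρ
    have hc : Helper77.SM.Cont ϖ σ := by
      intro j
      refine ⟨(Helper27.TFM.KI ρ₁ (maximalIdeal A ^ j)).map (QuotientGroup.mk' R), ?_, ?_⟩
      · exact QuotientGroup.isOpenMap_coe _ (hopen j)
      · rintro _ ⟨g, hg, rfl⟩ i l
        have h1 := hg i l
        rwa [hmax, Ideal.span_singleton_pow, Ideal.mem_span_singleton] at h1
    have hres : ∀ g, ∃ j : ℕ, ∀ i l, ((ρ g : Matrix (Fin n) (Fin n) A) ^ p ^ j - 1) i l ∈
        maximalIdeal A := by
      intro g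
      obtain ⟨j, hj⟩ := hr g
      refine ⟨j, fun i l => ?_⟩
      have h1 : residual ρ (g ^ p ^ j) = 1 := by rw [map_pow, hj]
      have h2 := (Helper27.LP.residual_eq_one ρ _).1 h1
      rw [Helper27.TE.mem_ker_red] at h2
      have h3 := h2 i l
      rw [pow_one, map_pow, Units.val_pow_eq_pow_val] at h3
      exact h3
    have hrp : Helper77.SM.ResP ϖ p σ := by
      intro x
      obtain ⟨g, rfl⟩ := QuotientGroup.mk'_surjective R x
      obtain ⟨j, hj⟩ := hres g
      refine ⟨j, fun i l => ?_⟩
      have h1 := hj i l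
      rw [hmax, Ideal.mem_span_singleton] at h1
      rw [pow_one]
      exact h1
    obtain ⟨⟨t, ht⟩, -⟩ := Helper77.SN.qu_quot (K := K) (S := S) hT p hO hϖ σ hc hrp
      (x := QuotientGroup.mk' R τ) ⟨Q, hQ, τ, hτ, rfl⟩
    refine Helper77.SM.unipotent_of_small p hϖ he' hen _ ?_ t ht
    obtain ⟨j, hj⟩ := hres τ
    rcases Nat.eq_zero_or_pos n with rfl | hpos
    · exact ⟨1, Subsingleton.elim _ _⟩
    have hne : NeZero n := ⟨hpos.ne'⟩
    refine ⟨p ^ j, ?_⟩
    change ((residue A).mapMatrix ((ρ τ : Matrix (Fin n) (Fin n) A) - 1)) ^ p ^ j = 0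
    rw [map_sub, map_one, sub_pow_char_pow_of_commute _ _ (Commute.one_right _), one_pow,
      ← map_pow, ← map_one (residue A).mapMatrix, ← map_sub]
    ext i l
    change residue A _ = 0
    rw [residue_eq_zero_iff]
    exact hj i l

/-- Discrete valuation rings of small ramification: no condition on the inertia groups. -/
theorem small_ramification (K : Type) [Field K] [NumberField K] (S : Set (Ideal (𝓞 K)))
    (hS : S.Finite) (p : ℕ) [Fact p.Prime] (n : ℕ)
    (h : ∀ (k : Type) [Field k] [Finite k] [CharP k p], Rigid K S p n k 0)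
    (hW : RigidW K S p n) (hE : Elementary K S p) (A : Type) [CommRing A] [IsDomain A]
    [IsDiscreteValuationRing A] [TopologicalSpace A] [CharP (ResidueField A) p]
    [Finite (ResidueField A)] [IsAdicComplete (maximalIdeal A) A] (hA : IsAdic (maximalIdeal A))
    (e : ℕ) (he : (p : A) ∉ maximalIdeal A ^ (e + 1)) (hen : e * n + 1 < p)
    (ρ : G K →* GL (Fin n) A) (hρ : Continuous ρ) (hT : Tame K S ρ.ker)
    (hr : ProjectivelyP p ρ) : (Set.range ρ).Finite := by
  rcases Nat.eq_zero_or_pos n with rfl | hpos
  · have : Subsingleton (GL (Fin 0) A) := ⟨fun a b => Units.ext (Subsingleton.elim _ _)⟩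
    exact Set.toFinite _
  have hne : NeZero n := ⟨hpos.ne'⟩
  obtain ⟨χ, ρ', hχ, hρ', hker, hmul, hr', -⟩ := Helper42.SOM.exists_twist p hA ρ hρ hr
  exact Helper42.SOM.finite_of_twist hχ (small_ramification_aux K S hS p n h hW hE A hA e he hen
    ρ' hρ' (Helper77.SO.TameSub.mono hT hker) hr') hmul

/-- The maximal ideals of the ring of integers of `ℚ` above the prime numbers in `T`. -/
def above (T : Finset ℕ) : Set (Ideal (𝓞 ℚ)) :=
  {Q | Q.IsMaximal ∧ ∃ r ∈ T, (r : 𝓞 ℚ) ∈ Q}

/-- The linking relations force nilpotent matrices to commute or to be jointly nilpotent. -/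
def Linked (p n : ℕ) {ι : Type} [Fintype ι] [DecidableEq ι] (l : ι → ι → ℕ) : Prop :=
  ∀ (k : Type) [Field k] [Finite k] [CharP k p] (N : ι → Matrix (Fin n) (Fin n) k),
    (∀ i, N i ^ n = 0) →
    (∀ i, (∑ j ∈ Finset.univ.erase i, (l i j : k) • N j) * N i =
      N i * ∑ j ∈ Finset.univ.erase i, (l i j : k) • N j) →
    (∀ i j, N i * N j = N j * N i) ∨ ∀ L : List ι, L.length = n → (L.map N).prod = 0

/-- The criterion for the field of rational numbers in terms of linking numbers: `q i` are the primes
in `T` congruent to `1` modulo `p`, `g i` primitive roots, `q i = g j ^ l i j` modulo `q j`. -/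
theorem rational (p n : ℕ) [Fact p.Prime] (hp2 : p ≠ 2) (T : Finset ℕ) (hT : ∀ r ∈ T, r.Prime)
    {ι : Type} [Fintype ι] [DecidableEq ι] (q : ι → ℕ) (hq : ∀ i, (q i).Prime)
    (hinj : Function.Injective q) (hq1 : ∀ i, p ∣ q i - 1)
    (hTq : ∀ r ∈ T, p ∣ r - 1 → ∃ i, q i = r) (g : ι → ℕ)
    (hg : ∀ i, orderOf (g i : ZMod (q i)) = q i - 1) (l : ι → ι → ℕ)
    (hl : ∀ i j, i ≠ j → (q i : ZMod (q j)) = (g j : ZMod (q j)) ^ l i j)
    (hcrit : Linked p n l) (k : Type) [Field k] [Finite k] [CharP k p] :
    Rigid ℚ (above T) p n k 0 := by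
  have h1 : Helper77.SO.Criterion ℚ (above T) p n := by
    refine Helper42.SOQ.criterion_rat p n hp2 q hq hinj hq1 (above T) ?_ g hg l hl hcrit
    rintro Q ⟨hQ, r, hr, hrQ⟩ - hdvd
    rw [Helper27.TE.card_quot_rat Q hQ (hT r hr) hrQ] at hdvd
    obtain ⟨i, rfl⟩ := hTq r hr hdvd
    exact ⟨i, hrQ⟩
  intro φ ψ hφ hψ hN _ hI
  by_cases hc : ∀ l : List (G ℚ), l.length = n → (l.map φ).prod = 0
  · exact Or.inr hc
  · left
    push Not at hc
    refine h1 k φ ψ hφ hψ hN ?_ hc
    intro Q hQ τ hτ
    have h2 := hI Q hQ τ hτ
    rw [zero_smul, sub_zero] at h2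
    have h3 : IsNilpotent (φ τ) := (IsNilpotent.pow_iff_pos (Fact.out : p.Prime).pos.ne').1 h2
    have h4 := (Matrix.isNilpotent_charpoly_sub_pow_of_isNilpotent h3).eq_zero
    rw [Fintype.card_fin, sub_eq_zero] at h4
    have h5 := Matrix.aeval_self_charpoly (φ τ)
    rwa [h4, map_pow, Polynomial.aeval_X] at h5

/-- The criterion for `K = ℚ`, `p = 3`, `n = 2` and a finite set of prime numbers, those congruent
to `1` modulo `3` among `7, 13, 19, 61`. -/
theorem example_three (T : Finset ℕ) (hT : ∀ r ∈ T, r.Prime)
    (hT' : ∀ r ∈ T, r % 3 = 1 → r = 7 ∨ r = 13 ∨ r = 19 ∨ r = 61) (k : Type) [Field k] [Finite k]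
    [CharP k 3] : Rigid ℚ (above T) 3 2 k 0 := by
  have hf : Fact (Nat.Prime 3) := ⟨by norm_num⟩
  refine rational 3 2 (by norm_num) T hT Helper42.SOQ.q3 ?_ ?_ ?_ ?_ Helper42.SOQ.g3 ?_
    Helper42.SOQ.l3 ?_ (Helper42.SOQ.linkCriterion_goodFour 3 (by norm_num) _ Helper42.SOQ.good3) k
  · intro i; fin_cases i <;> norm_num [Helper42.SOQ.q3]
  · decide
  · intro i; fin_cases i <;> norm_num [Helper42.SOQ.q3]
  · intro r hr hd
    have h2 := (hT r hr).two_le
    rcases hT' r hr (by omega) with rfl | rfl | rfl | rfl
    · exact ⟨0, rfl⟩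
    · exact ⟨1, rfl⟩
    · exact ⟨2, rfl⟩
    · exact ⟨3, rfl⟩
  · intro i
    fin_cases i
    · exact Helper42.SOQ.order_aux 7 3 (by norm_num) (by decide) (by decide)
    · exact Helper42.SOQ.order_aux 13 2 (by norm_num) (by decide) (by decide)
    · exact Helper42.SOQ.order_aux 19 2 (by norm_num) (by decide) (by decide)
    · exact Helper42.SOQ.order_aux 61 2 (by norm_num) (by decide) (by decide)
  · intro i j hij
    refine Helper42.SOQ.link_aux _ _ _ _ ?_
    revert hij
    revert i j
    decide

end Pool.Agent.Results.MP_924d78_nt.SecondOrder
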