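import Mathlib
import Pool.Agent.Helper45.FM.Cyc
import Pool.Agent.Helper56.H94.FM
import Pool.Agent.Helper27.TFM.Adic

/-!
# Tame representations of small dimension

Let `p` be an odd prime, `K` a number field with an automorphism `δ` and `S` a set of primes of `K`.
Assume that `δ` acts on the residue fields of all primes `Q` in `S` of norm `1` modulo `p` as a power
map with exponent `t` modulo `p`, that these norms are not `1` modulo `p ^ (V + 1)`, that
`p ^ (W + 1)` does not divide the class number of `K` and, if `p` divides the class number, that `δ`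
acts with the exponent `t` on the Galois groups of the unramified cyclic extensions of degree `p`.
Let `f` be the order of `t` modulo `p` and let `A` be a discrete valuation ring with absolute
ramification index `e` at `p`. Then a continuous representation `ρ` of the absolute Galois group of
`K` over `A`, tame in `S`, is trivial if all products of `d` matrices `ρ g - 1` are divisible by
`m ^ r` and `e * d * (V + W) < f * r`. In particular it is trivial if its image modulo `m` is a
`p`-group and `e * n * (V + W) < f`.

For `p` regular, `K = ℚ(ζ_p)` and the primes `S` above the primitive roots modulo `p ^ 2`, one has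
`V = 1`, `W = 0` and `f = p - 1`, and all dimensions `n ≤ p - 2` over `ℤ_p` are covered
(theorem `cyclotomic` below). For `δ = 1` and `t = 1` the theorem applies to all `K` and all finite
`S`, and shows that there is no nontrivial tame representation which is trivial modulo `m ^ r` with
`r > e * (V + W)`.

Idea of the proof. The products of the matrices `ρ g - 1` define a periodic chain of lattices, and a
filtration of the matrix ring for which the multiplication by `p` is a shift by exactly `e * d` and
`ρ g - 1` has degree at least `r`. Let `k` be the smallest degree of an element `ρ g - 1`. At a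
suitable finite level `M / K` the automorphism `δ` extends to `M`. The Frobenius relation, the
unramified case (the degree of a cyclic unramified extension of odd degree divides the class number,
Hilbert 94) show that the Galois group `P` of `M / K` has an endomorphism acting on the
abelianization of `P` by the scalar `t` up to nilpotent elements, and that the abelianization is
killed by `p ^ (V + W)`. An iterate of it acts by a scalar, and then by a power of the scalar on
the quotients of the lower central series. Hence every element can be changed by a commutator such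
that its `p ^ (V + W)`-th power lies in the `f + 1`-st term of the lower central series, and has
degree at least `(f + 1) * k`. But the degree of this power is exactly `k + e * d * (V + W)`.
-/

set_option autoImplicit false

open NumberField IsLocalRing Matrix

namespace Pool.Agent.Results.MP_924d78_nt.SmallDimension

/-- The homomorphism `ρ` from the absolute Galois group of `K` is unramified outside `S` and at most
tamely ramified in `S`: for every number field `F` over `K`, embedded into the fixed field of the
kernel of `ρ`, and every maximal ideal `P` of the ring of integers of `F` above a prime `q` of `K`,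
the ramification index `e` of `P` over `q` is `1` if `q ∉ S` and is prime to the residue
characteristic if `q ∈ S`. -/
def TameAt (K : Type) [Field K] [NumberField K] (S : Set (Ideal (𝓞 K))) {H : Type} [Group H]
    (ρ : (AlgebraicClosure K ≃ₐ[K] AlgebraicClosure K) →* H) : Prop :=
  ∀ (F : Type) [Field F] [NumberField F] [Algebra K F] (ι : F →ₐ[K] AlgebraicClosure K),
    ι.fieldRange ≤ IntermediateField.fixedField ρ.ker →
    ∀ (P : Ideal (𝓞 F)), P.IsMaximal →
    ∀ (q : Ideal (𝓞 K)), q = P.comap (algebraMap (𝓞 K) (𝓞 F)) →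
    ∀ e : ℕ, q.map (algebraMap (𝓞 K) (𝓞 F)) ≤ P ^ e →
      ¬ (q.map (algebraMap (𝓞 K) (𝓞 F)) ≤ P ^ (e + 1)) →
      (q ∉ S → e = 1) ∧ (q ∈ S → ¬ (ringChar (𝓞 K ⧸ q) ∣ e))

/-- The automorphism `δ` acts with exponent `t` modulo `p` on the residue fields of the primes `Q` in
`S` of norm congruent to `1` modulo `p`, and their norms are not congruent to `1` modulo
`p ^ (V + 1)`. -/
def ActsOnResidueFields (K : Type) [Field K] [NumberField K] (S : Set (Ideal (𝓞 K)))
    (p V t : ℕ) (δ : K ≃+* K) : Prop :=
  ∀ Q ∈ S, Q.IsMaximal → p ∣ Nat.card (𝓞 K ⧸ Q) - 1 → ¬ p ^ (V + 1) ∣ Nat.card (𝓞 K ⧸ Q) - 1 ∧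
    ∃ c : ℕ, (c : ZMod p) = t ∧ ∀ x : 𝓞 K, RingOfIntegers.mapRingEquiv δ x - x ^ c ∈ Q

/-- The automorphism `δ` of `K` extends to every Galois extension `F` of `K` of degree `p` which is
unramified at all maximal ideals, and acts on the Galois group by conjugation as the `t`-th power
map. -/
def ActsOnUnramified (K : Type) [Field K] [NumberField K] (p t : ℕ) (δ : K ≃+* K) : Prop :=
  ∀ (F : Type) [Field F] [NumberField F] [Algebra K F] [IsGalois K F],
    (∀ P : Ideal (𝓞 F), P.IsMaximal →
      ¬ (P.comap (algebraMap (𝓞 K) (𝓞 F))).map (algebraMap (𝓞 K) (𝓞 F)) ≤ P ^ 2) →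
    Nat.card (F ≃ₐ[K] F) = p → ∃ σ : F ≃+* F, (∀ x : K, σ (algebraMap K F x) =
      algebraMap K F (δ x)) ∧ ∀ (g : F ≃ₐ[K] F) (x : F), σ (g x) = (g ^ t) (σ x)

/-- All entries of all products of `d` matrices of the form `ρ g - 1` lie in the `r`-th power of the
maximal ideal. -/
def Depth {G A : Type} [Group G] [CommRing A] [IsLocalRing A] {n : ℕ} (ρ : G →* GL (Fin n) A)
    (d r : ℕ) : Prop :=
  ∀ l : List G, l.length = d → ∀ i j, ((l.map fun g =>
    (((ρ g : GL (Fin n) A) : Matrix (Fin n) (Fin n) A) - 1)).prod) i j ∈ maximalIdeal A ^ r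

/-- The image of `ρ` modulo the maximal ideal is a `p`-group. -/
def ResiduallyP {G A : Type} [Group G] [CommRing A] [IsLocalRing A] {n : ℕ} (p : ℕ)
    (ρ : G →* GL (Fin n) A) : Prop :=
  ∀ g, ∃ k : ℕ, ∀ i j,
    (((ρ g : GL (Fin n) A) : Matrix (Fin n) (Fin n) A) ^ p ^ k - 1) i j ∈ maximalIdeal A

theorem result (p : ℕ) [Fact p.Prime] (hodd : p ≠ 2) (K : Type) [Field K] [NumberField K]
    (δ : K ≃+* K) (t V W : ℕ) (S : Set (Ideal (𝓞 K))) (hS : ActsOnResidueFields K S p V t δ)
    (hW : ¬ p ^ (W + 1) ∣ classNumber K) (hU : p ∣ classNumber K → ActsOnUnramified K p t δ)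
    (A : Type) [CommRing A] [IsDomain A] [IsDiscreteValuationRing A] [TopologicalSpace A]
    (hA : IsAdic (maximalIdeal A)) (e : ℕ) (he : 0 < e) (hpe : (p : A) ∈ maximalIdeal A ^ e)
    (hpe' : (p : A) ∉ maximalIdeal A ^ (e + 1)) (n : ℕ)
    (ρ : (AlgebraicClosure K ≃ₐ[K] AlgebraicClosure K) →* GL (Fin n) A) (hρ : Continuous ρ)
    (hT : TameAt K S ρ) :
    (∀ d r : ℕ, Depth ρ d r → e * d * (V + W) < orderOf (t : ZMod p) * r → ∀ g, ρ g = 1) ∧
    (ResiduallyP p ρ → e * n * (V + W) < orderOf (t : ZMod p) → ∀ g, ρ g = 1) := by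
  have hp : p.Prime := Fact.out
  -- an extension of the automorphism to the algebraic closure
  let s : AlgebraicClosure K ≃+* AlgebraicClosure K :=
    IsAlgClosure.equivOfEquiv (AlgebraicClosure K) (AlgebraicClosure K) δ
  have hs : ∀ x : K, s (algebraMap K (AlgebraicClosure K) x) =
      algebraMap K (AlgebraicClosure K) (δ x) := fun x =>
    IsAlgClosure.equivOfEquiv_algebraMap (AlgebraicClosure K) (AlgebraicClosure K) δ x
  have hW' : Helper45.FM.ClassBound K p W := Helper56.H94.classBound K hp hodd hW
  have hU' : Helper45.FM.ClassScalar K p t δ := by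
    by_cases h : p ∣ classNumber K
    · exact hU h
    · intro F _ _ _ _ hF hcard
      have h0 := Helper56.H94.classBound_zero K hp hodd h
      have hc : IsCyclic (F ≃ₐ[K] F) := isCyclic_of_prime_card hcard
      have h1 := h0 F hF hc 1 (by rw [hcard, pow_one])
      omega
  have key : ∀ d r : ℕ, Depth ρ d r → e * d * (V + W) < orderOf (t : ZMod p) * r →
      ∀ g, ρ g = 1 := by
    intro d r hd hb g
    exact Helper45.FM.trivial_of_bound hs hW' hU' hS hA he hpe hpe' hρ hT hd hb g
  refine ⟨key, fun hres hb => key n 1 ?_ (by rw [mul_one]; exact hb)⟩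
  intro l hl i j
  rw [pow_one]
  have hpm : (p : A) ∈ maximalIdeal A := by
    have h1 := Ideal.pow_le_pow_right he hpe
    rwa [pow_one] at h1
  exact Helper45.FM.prod_mem_of_pgroup hA hpm hρ hres l hl i j

/-- The case of the cyclotomic fields of regular primes. -/
theorem cyclotomic (p : ℕ) [Fact p.Prime] (hodd : p ≠ 2) (K : Type) [Field K] [NumberField K]
    [IsCyclotomicExtension {p} ℚ K] (hreg : ¬ p ∣ classNumber K) (n : ℕ) (hn : n + 1 < p)
    (ρ : (AlgebraicClosure K ≃ₐ[K] AlgebraicClosure K) →* GL (Fin n) ℤ_[p]) (hρ : Continuous ρ)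
    (hT : TameAt K {Q | ∃ q : ℕ, q.Prime ∧ orderOf (q : ZMod (p ^ 2)) = p * (p - 1) ∧
      (q : 𝓞 K) ∈ Q} ρ) (hres : ResiduallyP p ρ) : ∀ g, ρ g = 1 := by
  obtain ⟨t, δ, ht, hS⟩ := Helper45.FM.exists_rayScalar (K := K) (p := p)
  have hm : maximalIdeal ℤ_[p] = Ideal.span {(p : ℤ_[p])} := PadicInt.maximalIdeal_eq_span_p
  refine (result p hodd K δ t 1 0 _ hS (by rwa [zero_add, pow_one]) (fun h => absurd h hreg) ℤ_[p]
    (Helper27.TFM.isAdic_padic p) 1 one_pos ?_ ?_ n ρ hρ hT).2 hres ?_
  · rw [pow_one, hm]
    exact Ideal.mem_span_singleton_self _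
  · rw [hm, Ideal.span_singleton_pow, Ideal.mem_span_singleton]
    rintro ⟨c, hc⟩
    have hp0 : (p : ℤ_[p]) ≠ 0 := by exact_mod_cast (Fact.out : p.Prime).ne_zero
    have h1 : (p : ℤ_[p]) * 1 = p * (p * c) := by rw [mul_one, ← mul_assoc, ← pow_two]; exact hc
    have h2 := mul_left_cancel₀ hp0 h1
    have h3 : IsUnit (p : ℤ_[p]) := IsUnit.of_mul_eq_one c h2.symm
    have h4 : (p : ℤ_[p]) ∈ maximalIdeal ℤ_[p] := by rw [hm]; exact Ideal.mem_span_singleton_self _
    exact (mem_maximalIdeal _).1 h4 h3
  · rw [ht]
    omega

end Pool.Agent.Results.MP_924d78_nt.SmallDimension
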