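import Mathlib
import Pool.Agent.Helper77.US.Final
import Pool.Agent.Helper77.DK.Final
import Pool.Agent.Helper27.LP.Solv

/-!
# Tame representations for large primes

Let `K` be a number field, `S` a finite set of primes of `K`, and `n` a natural number. There are a
constant `C` and an open normal subgroup `N` of the absolute Galois group of `K` such that, for all
primes `p > C`, all Noetherian local rings `A` with finite residue field of characteristic `p` and
with the adic topology, and all continuous representations `ρ` of dimension `n` over `A`, unramified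
outside `S` and at most tamely ramified in `S`:

* the image `ρ (N)` has no nontrivial finite `p`-solvable quotient;
* the residual image of `N` is generated by elements of `p`-power order, and its normal `p`-solvable
  subgroups are central modulo a `p`-group; so up to a normal `p`-subgroup it is a perfect group and a
  central extension of a group without normal `p`-solvable subgroups;
* if the residual image of `N` is `p`-solvable, then `ρ` is trivial on `N` and has finite image;
* if `n = 2` and `A` is complete, then `ρ` is trivial on `N`, or `ρ (N)` contains a conjugate, by an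
  element of `GL₂ (A)`, of the image of `SL₂ (ℤ_p)`.

The condition of the third item holds if the residual image of `ρ` is `p`-solvable (theorem `large_primes`), for
instance solvable (`residually_solvable`) or of order prime to `p` (`residually_coprime`), or if it has
a normal `p`-solvable subgroup of index less than `p` (`residually_virtually`). All these `ρ`, for all
`p` and `A` together, factor through one finite quotient. The representation itself is not assumed to
be virtually solvable.

A group is `p`-solvable if it has a normal series whose factors are `p`-groups or have elements of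
orders prime to `p`.

Idea of the proof. The quotient of a finite linear group of dimension `n` in characteristic `p` by the
subgroup generated by its elements of `p`-power order is a quotient of a subgroup of order prime to
`p` (Frattini, Schur and Zassenhaus). This subgroup has a linear representation of order prime to `p`,
which lifts to characteristic zero, so by the theorem of Jordan it has an abelian normal subgroup of
bounded index. The fields of bounded degree, tame in `S`, generate a finite extension `L₁` of `K`
(Hermite), and the maximal abelian extension `L₂` of `L₁`, tame in `S`, is finite over `L₁`, as well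
as the maximal abelian extension `L₃` of `L₂`, tame in `S`. All this does not depend on `p`. If `p` is
larger than the degree of `L₃`, then `L₂` has no cyclic extension of degree `p`, tame in `S`, and no
extension of degree prime to `p` in the field cut out by `ρ`. For the radical one uses that for
large `p` a `p`-solvable linear group of dimension `n` has a normal Sylow `p`-subgroup (Hall and
Higman; here the theorem of Jordan bounds the order of the automorphism group of the Fitting subgroup
of the quotient).

For `n = 2` and `p ≥ 7` the residual image of `N` contains a conjugate of `SL₂ (𝔽_p)`, unless it is a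
`p`-group (Dickson; one counts fixed points on the projective line). The elementary matrices are
lifted modulo every power of the maximal ideal with the help of a diagonal element of the image of
`N`, of order a power of a prime `l ≠ p`, whose eigenvalues are integers.
-/

set_option autoImplicit false

open NumberField IsLocalRing Matrix

namespace Pool.Agent.Results.MP_924d78_nt.UniformStructure

/-- the absolute Galois group -/
abbrev G (K : Type) [Field K] : Type := AlgebraicClosure K ≃ₐ[K] AlgebraicClosure K

/-- The homomorphism `ρ` from the absolute Galois group of `K` is unramified outside `S` and at most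
tamely ramified in `S`: for every number field `F` over `K`, embedded into the fixed field of the
kernel of `ρ`, and every maximal ideal `P` of the ring of integers of `F` above a prime `q` of `K`,
the ramification index `e` of `P` over `q` is `1` if `q ∉ S` and is prime to the residue
characteristic if `q ∈ S`. -/
def TameAt (K : Type) [Field K] [NumberField K] (S : Set (Ideal (𝓞 K))) {H : Type} [Group H]
    (ρ : G K →* H) : Prop :=
  ∀ (F : Type) [Field F] [NumberField F] [Algebra K F] (ι : F →ₐ[K] AlgebraicClosure K),
    ι.fieldRange ≤ IntermediateField.fixedField ρ.ker →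
    ∀ (P : Ideal (𝓞 F)), P.IsMaximal →
    ∀ (q : Ideal (𝓞 K)), q = P.comap (algebraMap (𝓞 K) (𝓞 F)) →
    ∀ e : ℕ, q.map (algebraMap (𝓞 K) (𝓞 F)) ≤ P ^ e →
      ¬ (q.map (algebraMap (𝓞 K) (𝓞 F)) ≤ P ^ (e + 1)) →
      (q ∉ S → e = 1) ∧ (q ∈ S → ¬ (ringChar (𝓞 K ⧸ q) ∣ e))

/-- The residual representation: the reduction of `ρ` modulo the maximal ideal. -/
noncomputable def residual {Γ A : Type} [Group Γ] [CommRing A] [IsLocalRing A] {n : ℕ}
    (ρ : Γ →* GL (Fin n) A) : Γ →* GL (Fin n) (ResidueField A) :=
  (Matrix.GeneralLinearGroup.map (residue A)).comp ρ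

/-- The group `G` is `p`-solvable: it has a normal series, in each of whose factors all elements
have `p`-power order, or all elements have order prime to `p`. -/
def PSolvable (p : ℕ) (G : Type) [Group G] : Prop :=
  ∃ (m : ℕ) (N : ℕ → Subgroup G), N 0 = ⊥ ∧ N m = ⊤ ∧ ∀ i, (N i).Normal ∧ N i ≤ N (i + 1) ∧
    ((∀ x ∈ N (i + 1), ∃ k : ℕ, x ^ p ^ k ∈ N i) ∨ ∀ x ∈ N (i + 1), ∃ k : ℕ, ¬ p ∣ k ∧ x ^ k ∈ N i)

/-- The image `ρ (N)` has no nontrivial finite `p`-solvable quotient: every homomorphism from `N` onto
a finite `p`-solvable group `Q` with open kernel, which factors through `ρ`, is trivial. -/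
def NoQuotient {K A : Type} [Field K] [CommRing A] {n : ℕ} (p : ℕ) (N : Subgroup (G K))
    (ρ : G K →* GL (Fin n) A) : Prop :=
  ∀ (Q : Type) [Group Q] [Finite Q] (f : N →* Q), Function.Surjective f →
    IsOpen (f.ker : Set N) → (∀ x : N, ρ x = 1 → f x = 1) → PSolvable p Q → Subsingleton Q

/-- The group `H` is generated by elements of `p`-power order, and for every normal `p`-solvable
subgroup `R` of `H` all elements of `[H, R]` have `p`-power order. -/
def CentralRadical {T : Type} [Group T] (p : ℕ) (H : Subgroup T) : Prop :=
  Subgroup.closure {y | y ∈ H ∧ ∃ k : ℕ, y ^ p ^ k = 1} = H ∧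
  ∀ R : Subgroup T, R ≤ H → (∀ g ∈ H, ∀ x ∈ R, g * x * g⁻¹ ∈ R) → PSolvable p R →
    ∀ y ∈ ⁅H, R⁆, ∃ k : ℕ, y ^ p ^ k = 1

theorem result (K : Type) [Field K] [NumberField K] (S : Set (Ideal (𝓞 K))) (hS : S.Finite)
    (n : ℕ) : ∃ (C : ℕ) (N : Subgroup (G K)), N.Normal ∧ IsOpen (N : Set (G K)) ∧
      ∀ (p : ℕ) [Fact p.Prime], C < p →
      ∀ (A : Type) [CommRing A] [IsLocalRing A] [IsNoetherianRing A] [TopologicalSpace A]
        [Finite (ResidueField A)] [CharP (ResidueField A) p] (ρ : G K →* GL (Fin n) A),
        IsAdic (maximalIdeal A) → Continuous ρ → TameAt K S ρ →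
        NoQuotient p N ρ ∧ CentralRadical p (N.map (residual ρ)) ∧
        (PSolvable p (N.map (residual ρ)) → N ≤ ρ.ker ∧ (Set.range ρ).Finite) ∧
        (n = 2 → IsAdicComplete (maximalIdeal A) A → N ≤ ρ.ker ∨
          ∃ (ι : ℤ_[p] →+* A) (g : GL (Fin n) A), ∀ γ : GL (Fin n) ℤ_[p], γ.det = 1 →
            g * Matrix.GeneralLinearGroup.map ι γ * g⁻¹ ∈ N.map ρ) := by
  obtain ⟨C, N, hNn, hNo, hN⟩ := Helper77.US.uniform K S hS n
  refine ⟨max C 6, N, hNn, hNo, ?_⟩
  intro p _ hp A _ _ _ _ _ _ ρ hA hρ hT
  obtain ⟨-, h2⟩ := hN p A ρ hA hρ hT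
  obtain ⟨h3, h4, h5⟩ := h2 ((le_max_left C 6).trans_lt hp)
  refine ⟨h5, ⟨h3, h4⟩, fun hsol => ?_, fun hn hc => ?_⟩
  · have h6 := Helper77.US.trivial_of_residual hA hρ N h5 hsol
    exact ⟨h6, Helper27.TE.finite_range_of_open hNo h6⟩
  · subst hn
    exact Helper77.DK.two_dim ((le_max_right C 6).trans_lt hp) hA hρ N hNo h3 h5

/-- Subgroups of `p`-solvable groups are `p`-solvable. -/
theorem PSolvable.of_le {p : ℕ} {T : Type} [Group T] {H H' : Subgroup T} (h : PSolvable p H)
    (hle : H' ≤ H) : PSolvable p H' := by
  obtain ⟨m, N, h0, hm, hN⟩ := h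
  let f : H' →* H := Subgroup.inclusion hle
  refine ⟨m, fun i => (N i).comap f, ?_, ?_, fun i => ?_⟩
  · change (N 0).comap f = ⊥
    rw [h0, eq_bot_iff]
    intro x hx
    rw [Subgroup.mem_comap, Subgroup.mem_bot] at hx
    rw [Subgroup.mem_bot]
    exact Subgroup.inclusion_injective hle (hx.trans (map_one f).symm)
  · change (N m).comap f = ⊤
    rw [hm, Subgroup.comap_top]
  · obtain ⟨h1, h2, h3⟩ := hN i
    refine ⟨h1.comap f, Subgroup.comap_mono h2, ?_⟩
    rcases h3 with h3 | h3
    · left
      intro x hx
      obtain ⟨k, hk⟩ := h3 (f x) hx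
      exact ⟨k, by rw [Subgroup.mem_comap, map_pow]; exact hk⟩
    · right
      intro x hx
      obtain ⟨k, hk, hk'⟩ := h3 (f x) hx
      exact ⟨k, hk, by rw [Subgroup.mem_comap, map_pow]; exact hk'⟩

/-- Solvable groups are `p`-solvable. -/
theorem pSolvable_of_isSolvable (p : ℕ) [Fact p.Prime] {G : Type} [Group G] [Finite G]
    [Group.IsSolvable G] : PSolvable p G :=
  Helper27.LP.pSolvable_of_isSolvable p

/-- Groups of order prime to `p` are `p`-solvable. -/
theorem pSolvable_of_not_dvd (p : ℕ) {G : Type} [Group G] (h : ¬ p ∣ Nat.card G) :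
    PSolvable p G :=
  Helper27.LP.pSolvable_of_not_dvd p h

/-- Representations whose residual image has a normal `p`-solvable subgroup of index less than
`p`. -/
theorem residually_virtually (K : Type) [Field K] [NumberField K] (S : Set (Ideal (𝓞 K)))
    (hS : S.Finite) (n : ℕ) : ∃ (C : ℕ) (N : Subgroup (G K)), IsOpen (N : Set (G K)) ∧
      ∀ (p : ℕ) [Fact p.Prime], C < p →
      ∀ (A : Type) [CommRing A] [IsLocalRing A] [IsNoetherianRing A] [TopologicalSpace A]
        [Finite (ResidueField A)] [CharP (ResidueField A) p] (ρ : G K →* GL (Fin n) A),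
        IsAdic (maximalIdeal A) → Continuous ρ → TameAt K S ρ →
        ∀ H : Subgroup (residual ρ).range, H.Normal → H.index < p → PSolvable p H →
          N ≤ ρ.ker ∧ (Set.range ρ).Finite := by
  obtain ⟨C, N, -, hNo, hN⟩ := result K S hS n
  refine ⟨C, N, hNo, ?_⟩
  intro p hp hC A _ _ _ _ _ _ ρ hA hρ hT H hH hi hsol
  obtain ⟨-, ⟨h1, -⟩, h2, -⟩ := hN p hC A ρ hA hρ hT
  apply h2
  have hsol' : PSolvable p (H.map (residual ρ).range.subtype) := by
    obtain ⟨m, M, h0, hm, hM⟩ := hsol
    let e : H ≃* H.map (residual ρ).range.subtype :=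
      H.equivMapOfInjective _ (Subgroup.subtype_injective _)
    refine ⟨m, fun i => (M i).comap e.symm.toMonoidHom, ?_, ?_, fun i => ?_⟩
    · change (M 0).comap e.symm.toMonoidHom = ⊥
      rw [h0, eq_bot_iff]
      intro x hx
      rw [Subgroup.mem_comap, Subgroup.mem_bot] at hx
      rw [Subgroup.mem_bot]
      exact e.symm.injective (hx.trans (map_one e.symm).symm)
    · change (M m).comap e.symm.toMonoidHom = ⊤
      rw [hm, Subgroup.comap_top]
    · obtain ⟨h3, h4, h5⟩ := hM i
      refine ⟨h3.comap _, Subgroup.comap_mono h4, ?_⟩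
      rcases h5 with h5 | h5
      · left
        intro x hx
        obtain ⟨k, hk⟩ := h5 (e.symm x) hx
        exact ⟨k, by rw [Subgroup.mem_comap, map_pow]; exact hk⟩
      · right
        intro x hx
        obtain ⟨k, hk, hk'⟩ := h5 (e.symm x) hx
        exact ⟨k, hk, by rw [Subgroup.mem_comap, map_pow]; exact hk'⟩
  refine hsol'.of_le ?_
  rw [← h1, Subgroup.closure_le]
  rintro y ⟨⟨x, -, rfl⟩, k, hk⟩
  have hfin : Finite (residual ρ).range := inferInstance
  have h3 : (⟨residual ρ x, x, rfl⟩ : (residual ρ).range) ^ H.index ∈ H :=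
    Subgroup.pow_index_mem H _
  have h4 : (⟨residual ρ x, x, rfl⟩ : (residual ρ).range) ^ p ^ k ∈ H := by
    have : (⟨residual ρ x, x, rfl⟩ : (residual ρ).range) ^ p ^ k = 1 := Subtype.ext hk
    rw [this]
    exact one_mem _
  have h5 : Nat.Coprime H.index (p ^ k) := by
    apply Nat.Coprime.pow_right
    rw [Nat.coprime_comm, Nat.Prime.coprime_iff_not_dvd hp.out]
    intro hd
    have := Nat.le_of_dvd (Nat.pos_of_ne_zero Subgroup.index_ne_zero_of_finite) hd
    omega
  exact ⟨_, Helper77.US.mem_of_coprime H _ h3 h4 h5, rfl⟩

/-- The case of a `p`-solvable residual image. -/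
theorem large_primes (K : Type) [Field K] [NumberField K] (S : Set (Ideal (𝓞 K))) (hS : S.Finite)
    (n : ℕ) : ∃ (C : ℕ) (N : Subgroup (G K)), IsOpen (N : Set (G K)) ∧
      ∀ (p : ℕ) [Fact p.Prime], C < p →
      ∀ (A : Type) [CommRing A] [IsLocalRing A] [IsNoetherianRing A] [TopologicalSpace A]
        [Finite (ResidueField A)] [CharP (ResidueField A) p] (ρ : G K →* GL (Fin n) A),
        IsAdic (maximalIdeal A) → Continuous ρ → TameAt K S ρ →
        PSolvable p (residual ρ).range → N ≤ ρ.ker ∧ (Set.range ρ).Finite := by
  obtain ⟨C, N, -, hNo, hN⟩ := result K S hS n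
  refine ⟨C, N, hNo, ?_⟩
  intro p hp hC A _ _ _ _ _ _ ρ hA hρ hT hsol
  refine (hN p hC A ρ hA hρ hT).2.2.1 (hsol.of_le ?_)
  rintro _ ⟨x, -, rfl⟩
  exact ⟨x, rfl⟩

/-- For all but finitely many primes `p`, residually solvable tame representations have finite
image. -/
theorem residually_solvable (K : Type) [Field K] [NumberField K] (S : Set (Ideal (𝓞 K)))
    (hS : S.Finite) (n : ℕ) : ∃ C : ℕ, ∀ (p : ℕ) [Fact p.Prime], C < p →
      ∀ (A : Type) [CommRing A] [IsLocalRing A] [IsNoetherianRing A] [TopologicalSpace A]
        [Finite (ResidueField A)] [CharP (ResidueField A) p] (ρ : G K →* GL (Fin n) A),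
        IsAdic (maximalIdeal A) → Continuous ρ → TameAt K S ρ →
        Group.IsSolvable (residual ρ).range → (Set.range ρ).Finite := by
  obtain ⟨C, N, -, hN'⟩ := large_primes K S hS n
  refine ⟨C, ?_⟩
  intro p _ hp A _ _ _ _ _ _ ρ hA hρ hT hsol
  exact (hN' p hp A ρ hA hρ hT (pSolvable_of_isSolvable p)).2

/-- For all but finitely many primes `p`, tame representations whose residual image has order prime
to `p` have finite image. -/
theorem residually_coprime (K : Type) [Field K] [NumberField K] (S : Set (Ideal (𝓞 K)))
    (hS : S.Finite) (n : ℕ) : ∃ C : ℕ, ∀ (p : ℕ) [Fact p.Prime], C < p →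
      ∀ (A : Type) [CommRing A] [IsLocalRing A] [IsNoetherianRing A] [TopologicalSpace A]
        [Finite (ResidueField A)] [CharP (ResidueField A) p] (ρ : G K →* GL (Fin n) A),
        IsAdic (maximalIdeal A) → Continuous ρ → TameAt K S ρ →
        ¬ p ∣ Nat.card (residual ρ).range → (Set.range ρ).Finite := by
  obtain ⟨C, N, -, hN'⟩ := large_primes K S hS n
  refine ⟨C, ?_⟩
  intro p _ hp A _ _ _ _ _ _ ρ hA hρ hT hcard
  exact (hN' p hp A ρ hA hρ hT (pSolvable_of_not_dvd p hcard)).2

end Pool.Agent.Results.MP_924d78_nt.UniformStructure
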