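import Mathlib
import Pool.Agent.Helper68.RR.Coef

/-!
# Reduction of the tame finiteness question to unramified and unipotent representations

Let `p` be a prime number. The question for all number fields `K`, all finite sets `S` of primes of
`K` and all coefficient rings `A` of residue characteristic `p` is shown to be equivalent to the
following statements.

* Every continuous representation over `ℤ_p` or over `𝔽_p⟦X⟧` of the absolute Galois group of a
  number field, unramified outside finitely many primes and with finite inertia above `p`, has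
  finite image; and the same for the field of rational numbers only.
* Every continuous odd orthogonal representation of the absolute Galois group of the rational
  numbers, whose restriction to some totally real Galois number field `M` is everywhere unramified
  (over `𝔽_p⟦X⟧`), respectively unramified outside finitely many primes not above `p` and with
  unipotent inertia (over `ℤ_p`), has finite image.
* For every number field `K`, every continuous everywhere unramified representation over `𝔽_p⟦X⟧`
  which is trivial modulo `X ^ m` has finite image, and every continuous representation over `ℤ_p`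
  which is trivial modulo `p ^ m`, unramified outside finitely many primes not above `p` and which
  has unipotent inertia, has finite image. Here `m` is an arbitrary fixed natural number.

Idea of the proof. Let `ρ` be tame. At finite level the inertia group acts faithfully on `P / P ^ 2`
by multiplication with elements of the residue field. Hence it is cyclic, and a Frobenius element
`φ` satisfies `φ τ φ⁻¹ = τ ^ q`. So the matrices `ρ τ` and `ρ τ ^ q` have the same characteristic
polynomial, and the eigenvalues of `ρ τ` are roots of unity of bounded order. Over `𝔽_p⟦X⟧` the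
images of the inertia groups are therefore finite and over `ℤ_p` they are quasi-unipotent. A
congruence subgroup meets the images of the inertia groups trivially, respectively in unipotent
elements; here one uses that the inertia groups above a prime are conjugate. In the other direction,
elements of inertia groups at finite level are lifted to infinite level by compactness. The
reduction to the two coefficient rings and the totally real fields are those of the files
`CoefficientReduction` and `TotallyRealReduction`.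
-/

set_option autoImplicit false

open NumberField IsLocalRing Matrix PowerSeries Pool.Agent.Helper16.TR Pool.Agent.Helper68.RR

open scoped PowerSeries.WithPiTopology

namespace Pool.Agent.Results.MP_924d78_nt.UnramifiedReduction

/-- The inclusion of the automorphisms of `Ω` over `K` into the automorphisms of `Ω` over the
rational numbers. -/
noncomputable def overQ (K Ω : Type) [Field K] [Field Ω] [Algebra K Ω] [Algebra ℚ Ω] :
    (Ω ≃ₐ[K] Ω) →* (Ω ≃ₐ[ℚ] Ω) where
  toFun κ := AlgEquiv.ofRingEquiv (f := κ.toRingEquiv) (fun q => by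
    have h : (κ.toRingEquiv : Ω →+* Ω).comp (algebraMap ℚ Ω) = algebraMap ℚ Ω :=
      Subsingleton.elim _ _
    exact RingHom.congr_fun h q)
  map_one' := by ext x; rfl
  map_mul' a b := by ext x; rfl

lemma overQ_eq (K Ω : Type) [Field K] [NumberField K] [Field Ω] [Algebra K Ω] [Algebra ℚ Ω]
    [IsScalarTower ℚ K Ω] : overQ K Ω = res := by
  ext κ x; rfl

lemma isGalois_closure : IsGalois ℚ (AlgebraicClosure ℚ) := by
  have h : @IsGalois ℚ _ (AlgebraicClosure ℚ) _ (AlgebraicClosure.instAlgebra ℚ) := inferInstance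
  convert h
  exact Subsingleton.elim _ _

/-- Every continuous representation over `A` of the absolute Galois group of a number field, which
is unramified outside finitely many primes and has finite inertia above `p`, has finite image. -/
def PotUnramFinite (p : ℕ) (A : Type) [CommRing A] [TopologicalSpace A] : Prop :=
  ∀ (K : Type) [Field K] [NumberField K] (n : ℕ)
    (ρ : (AlgebraicClosure K ≃ₐ[K] AlgebraicClosure K) →* GL (Fin n) A), Continuous ρ →
    (∃ D : ℕ, D ≠ 0 ∧ UnramOutside D ρ) → FiniteInertia p ρ → (Set.range ρ).Finite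

/-- Every continuous representation over `A` of the absolute Galois group of the rational numbers,
which is unramified outside finitely many primes and has finite inertia above `p`, has finite
image. -/
def PotUnramFiniteQ (p : ℕ) (A : Type) [CommRing A] [TopologicalSpace A] : Prop :=
  ∀ (n : ℕ) (τ : (AlgebraicClosure ℚ ≃ₐ[ℚ] AlgebraicClosure ℚ) →* GL (Fin n) A), Continuous τ →
    (∃ D : ℕ, D ≠ 0 ∧ UnramOutside D τ) → FiniteInertia p τ → (Set.range τ).Finite

/-- Let `M` be a totally real number field, Galois over the rational numbers. Every continuous odd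
orthogonal representation over `ℤ_p` of the absolute Galois group of the rational numbers, whose
restriction to the Galois group of `M` is unramified outside finitely many primes not above `p` and
has unipotent inertia, has finite image. -/
def OddUnipotentFinite (p : ℕ) [Fact p.Prime] : Prop :=
  ∀ (M : Type) [Field M] [NumberField M] [IsTotallyReal M] [IsGalois ℚ M]
    [Algebra M (AlgebraicClosure ℚ)] (n : ℕ)
    (τ : (AlgebraicClosure ℚ ≃ₐ[ℚ] AlgebraicClosure ℚ) →* GL (Fin n) ℤ_[p]), Continuous τ →
    IsOdd τ → IsOrthogonal τ →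
    (∃ D : ℕ, ¬ p ∣ D ∧ UnramOutside D (τ.comp (overQ M (AlgebraicClosure ℚ)))) →
    UnipotentInertia (τ.comp (overQ M (AlgebraicClosure ℚ))) → (Set.range τ).Finite

/-- Let `M` be a totally real number field, Galois over the rational numbers. Every continuous odd
orthogonal representation over `𝔽_p⟦X⟧` of the absolute Galois group of the rational numbers, whose
restriction to the Galois group of `M` is everywhere unramified, has finite image. -/
def OddUnramFinite (p : ℕ) [Fact p.Prime] : Prop :=
  ∀ (M : Type) [Field M] [NumberField M] [IsTotallyReal M] [IsGalois ℚ M]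
    [Algebra M (AlgebraicClosure ℚ)] (n : ℕ)
    (τ : (AlgebraicClosure ℚ ≃ₐ[ℚ] AlgebraicClosure ℚ) →* GL (Fin n) (ZMod p)⟦X⟧), Continuous τ →
    IsOdd τ → IsOrthogonal τ → UnramOutside 1 (τ.comp (overQ M (AlgebraicClosure ℚ))) →
    (Set.range τ).Finite

/-- Every continuous representation over `ℤ_p` of the absolute Galois group of a number field, which
is trivial modulo `p ^ m`, unramified outside finitely many primes not above `p` and has unipotent
inertia, has finite image. -/
def UnipotentFinite (p m : ℕ) [Fact p.Prime] : Prop :=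
  ∀ (K : Type) [Field K] [NumberField K] (n : ℕ)
    (ρ : (AlgebraicClosure K ≃ₐ[K] AlgebraicClosure K) →* GL (Fin n) ℤ_[p]), Continuous ρ →
    TrivialMod m ρ → (∃ D : ℕ, ¬ p ∣ D ∧ UnramOutside D ρ) → UnipotentInertia ρ →
    (Set.range ρ).Finite

/-- Every continuous representation over `𝔽_p⟦X⟧` of the absolute Galois group of a number field,
which is trivial modulo `X ^ m` and everywhere unramified, has finite image. -/
def UnramFinite (p m : ℕ) [Fact p.Prime] : Prop :=
  ∀ (K : Type) [Field K] [NumberField K] (n : ℕ)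
    (ρ : (AlgebraicClosure K ≃ₐ[K] AlgebraicClosure K) →* GL (Fin n) (ZMod p)⟦X⟧), Continuous ρ →
    TrivialMod m ρ → UnramOutside 1 ρ → (Set.range ρ).Finite

lemma charP_power (p : ℕ) [Fact p.Prime] : CharP (ZMod p)⟦X⟧ p :=
  charP_of_injective_ringHom (f := (PowerSeries.C : ZMod p →+* (ZMod p)⟦X⟧))
    (RingHom.injective _) p

lemma padic_mem (p : ℕ) [Fact p.Prime] : ((p : ℕ) : ℤ_[p]) ∈ maximalIdeal ℤ_[p] := by
  rw [PadicInt.maximalIdeal_eq_span_p]
  exact Ideal.mem_span_singleton_self _

lemma power_mem (p : ℕ) [Fact p.Prime] : ((p : ℕ) : (ZMod p)⟦X⟧) ∈ maximalIdeal (ZMod p)⟦X⟧ := by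
  have := charP_power p
  rw [CharP.cast_eq_zero]
  exact zero_mem _

lemma finiteInertia_of_unram {K Ω H : Type} [Field K] [Field Ω] [Algebra K Ω] [Group H]
    {p D : ℕ} (hp : p.Prime) (hpD : ¬ p ∣ D) {ρ : (Ω ≃ₐ[K] Ω) →* H} (h : UnramOutside D ρ) :
    FiniteInertia p ρ := by
  intro P hP hpP
  have hDP : (D : 𝓞 Ω) ∉ P := by
    intro hD
    have hcop : IsCoprime ((p : ℕ) : ℤ) (D : ℤ) := by
      rw [Nat.isCoprime_iff_coprime]
      exact (Nat.Prime.coprime_iff_not_dvd hp).2 hpD
    obtain ⟨u, v, huv⟩ := hcop
    apply hP.ne_top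
    rw [Ideal.eq_top_iff_one]
    have h2 : (1 : 𝓞 Ω) = (u : 𝓞 Ω) * (p : 𝓞 Ω) + (v : 𝓞 Ω) * (D : 𝓞 Ω) := by
      have := congrArg (fun z : ℤ => (z : 𝓞 Ω)) huv
      push_cast at this
      exact this.symm
    rw [h2]
    exact add_mem (Ideal.mul_mem_left _ _ hpP) (Ideal.mul_mem_left _ _ hD)
  refine (Set.finite_singleton (1 : H)).subset ?_
  rintro _ ⟨γ, hγ, rfl⟩
  exact h P hP hDP γ hγ

lemma ne_zero_of_not_dvd {p D : ℕ} (h : ¬ p ∣ D) : D ≠ 0 := by
  rintro rfl
  exact h (dvd_zero p)

theorem result (p m : ℕ) [Fact p.Prime] :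
    List.TFAE [
      ∀ (K : Type) [Field K] [NumberField K] (S : Set (Ideal (𝓞 K))), S.Finite →
        ∀ (A : Type) [CommRing A] [IsLocalRing A] [IsNoetherianRing A] [TopologicalSpace A],
        IsAdic (maximalIdeal A) → IsAdicComplete (maximalIdeal A) A →
        Finite (ResidueField A) → CharP (ResidueField A) p → FiniteImages K S A,
      PotUnramFinite p ℤ_[p] ∧ PotUnramFinite p (ZMod p)⟦X⟧,
      PotUnramFiniteQ p ℤ_[p] ∧ PotUnramFiniteQ p (ZMod p)⟦X⟧,
      OddUnipotentFinite p ∧ OddUnramFinite p,
      UnipotentFinite p m ∧ UnramFinite p m] := by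
  have hp : p.Prime := Fact.out
  have hchar := charP_power p
  have hGal := isGalois_closure
  -- the two coefficient rings
  have hZ : (∀ (K : Type) [Field K] [NumberField K] (S : Set (Ideal (𝓞 K))), S.Finite →
        ∀ (A : Type) [CommRing A] [IsLocalRing A] [IsNoetherianRing A] [TopologicalSpace A],
        IsAdic (maximalIdeal A) → IsAdicComplete (maximalIdeal A) A →
        Finite (ResidueField A) → CharP (ResidueField A) p → FiniteImages K S A) →
      (∀ (K₁ : Type) [Field K₁] [NumberField K₁] (S : Set (Ideal (𝓞 K₁))), S.Finite →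
        FiniteImages K₁ S ℤ_[p]) ∧
      (∀ (K₁ : Type) [Field K₁] [NumberField K₁] (S : Set (Ideal (𝓞 K₁))), S.Finite →
        FiniteImages K₁ S (ZMod p)⟦X⟧) := by
    intro h
    constructor
    · intro K₁ _ _ S hS
      exact h K₁ S hS ℤ_[p] (Pool.Agent.Helper27.TFM.isAdic_padic p) inferInstance
        (Pool.Agent.Helper27.TFM.finite_res_padic p) (Pool.Agent.Helper27.TFM.char_res_padic p)
    · intro K₁ _ _ S hS
      exact h K₁ S hS (ZMod p)⟦X⟧ (Pool.Agent.Helper27.TFM.isAdic_power p)
        (Pool.Agent.Helper27.TFM.complete_power p) (Pool.Agent.Helper27.TFM.finite_res_power p)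
        (Pool.Agent.Helper27.TFM.char_res_power p)
  tfae_have 1 → 2 := by
    intro h
    obtain ⟨h1, h2⟩ := hZ h
    constructor
    · rintro K _ _ n ρ hρ ⟨D, hD, hDρ⟩ hpρ
      exact finite_of_pot p (padic_mem p) (Pool.Agent.Helper27.TFM.isAdic_padic p)
        (fun K₁ _ _ S hS n ρ₁ hρ₁ hT => h1 K₁ S hS n ρ₁ hρ₁ hT) hρ hD hDρ hpρ
    · rintro K _ _ n ρ hρ ⟨D, hD, hDρ⟩ hpρ
      exact finite_of_pot p (power_mem p) (Pool.Agent.Helper27.TFM.isAdic_power p)
        (fun K₁ _ _ S hS n ρ₁ hρ₁ hT => h2 K₁ S hS n ρ₁ hρ₁ hT) hρ hD hDρ hpρ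
  tfae_have 1 → 3 := by
    intro h
    obtain ⟨h1, h2⟩ := hZ h
    constructor
    · rintro n ρ hρ ⟨D, hD, hDρ⟩ hpρ
      exact finite_of_pot p (padic_mem p) (Pool.Agent.Helper27.TFM.isAdic_padic p)
        (fun K₁ _ _ S hS n ρ₁ hρ₁ hT => h1 K₁ S hS n ρ₁ hρ₁ hT) hρ hD hDρ hpρ
    · rintro n ρ hρ ⟨D, hD, hDρ⟩ hpρ
      exact finite_of_pot p (power_mem p) (Pool.Agent.Helper27.TFM.isAdic_power p)
        (fun K₁ _ _ S hS n ρ₁ hρ₁ hT => h2 K₁ S hS n ρ₁ hρ₁ hT) hρ hD hDρ hpρ
  tfae_have 2 → 5 := by
    rintro ⟨h1, h2⟩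
    constructor
    · rintro K _ _ n ρ hρ - ⟨D, hD, hDρ⟩ -
      exact h1 K n ρ hρ ⟨D, ne_zero_of_not_dvd hD, hDρ⟩ (finiteInertia_of_unram hp hD hDρ)
    · rintro K _ _ n ρ hρ - hDρ
      exact h2 K n ρ hρ ⟨1, one_ne_zero, hDρ⟩
        (finiteInertia_of_unram hp (Nat.Prime.not_dvd_one hp) hDρ)
  tfae_have 3 → 4 := by
    rintro ⟨h1, h2⟩
    constructor
    · rintro M _ _ _ _ _ n τ hτ - - ⟨D, hD, hDτ⟩ -
      have tow : IsScalarTower ℚ M (AlgebraicClosure ℚ) :=
        IsScalarTower.of_algebraMap_eq' (Subsingleton.elim _ _)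
      rw [overQ_eq] at hDτ
      exact h1 n τ hτ (unram_of_restrict τ (ne_zero_of_not_dvd hD) hDτ)
        (finiteInertia_of_restrict τ hp hD hDτ)
    · rintro M _ _ _ _ _ n τ hτ - - hDτ
      have tow : IsScalarTower ℚ M (AlgebraicClosure ℚ) :=
        IsScalarTower.of_algebraMap_eq' (Subsingleton.elim _ _)
      rw [overQ_eq] at hDτ
      exact h2 n τ hτ (unram_of_restrict τ one_ne_zero hDτ)
        (finiteInertia_of_restrict τ hp (Nat.Prime.not_dvd_one hp) hDτ)
  tfae_have 4 → 5 := by
    rintro ⟨h1, h2⟩
    constructor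
    · rintro K _ _ n ρ hρ - ⟨D, hD, hDρ⟩ hu
      obtain ⟨M, _, _, _, tow, hreal, hgal, D₀, hD₀, h⟩ := exists_real (AlgebraicClosure ℚ) K
      obtain ⟨m', τ, hτ, hodd, horth, hfin, -, hI⟩ := h ℤ_[p] n ρ hρ
      apply hfin
      refine h1 M m' τ hτ hodd horth ⟨D, hD, ?_⟩ ?_
      · intro P hP hDP σ hσ
        exact (hI P hP (overQ M (AlgebraicClosure ℚ) σ) hσ (fun x => σ.commutes x)).1 D hDρ hDP
      · intro P hP σ hσ
        exact (hI P hP (overQ M (AlgebraicClosure ℚ) σ) hσ (fun x => σ.commutes x)).2 hu
    · rintro K _ _ n ρ hρ - hDρ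
      obtain ⟨M, _, _, _, tow, hreal, hgal, D₀, hD₀, h⟩ := exists_real (AlgebraicClosure ℚ) K
      obtain ⟨m', τ, hτ, hodd, horth, hfin, -, hI⟩ := h (ZMod p)⟦X⟧ n ρ hρ
      apply hfin
      refine h2 M m' τ hτ hodd horth ?_
      intro P hP hDP σ hσ
      exact (hI P hP (overQ M (AlgebraicClosure ℚ) σ) hσ (fun x => σ.commutes x)).1 1 hDρ hDP
  tfae_have 5 → 1 := by
    rintro ⟨h1, h2⟩ K _ _ S hS A _ _ _ _ hA hc hf hpA
    refine finite_of_two K S p ?_ ?_ A hA hc hf hpA
    · intro n ρ hρ hT
      refine reduction_char0 p m ?_ (padic_mem p) (Pool.Agent.Helper27.TFM.isAdic_padic p) (k := 2)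
        ?_ (fun K₁ _ _ n ρ₁ hρ₁ hD hu ht => h1 K₁ n ρ₁ hρ₁ ht hD hu) hS hρ hT
      · exact_mod_cast hp.ne_zero
      · rw [PadicInt.maximalIdeal_eq_span_p, Ideal.span_singleton_pow]
    · intro n ρ hρ hT
      exact reduction_charp p m (Pool.Agent.Helper27.TFM.isAdic_power p)
        (fun K₁ _ _ n ρ₁ hρ₁ hD ht => h2 K₁ n ρ₁ hρ₁ ht hD) hS hρ hT
  tfae_finish

end Pool.Agent.Results.MP_924d78_nt.UnramifiedReduction
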